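import Pool.Agent.MP_ab80ef_co.Dense

/- Compression of the fibres over the lowest `k` directions to initial segments. -/

namespace Pool.Agent.MP_ab80ef_co

open Finset

/-- fibre size -/
def wt (k : ℕ) (A : Finset ℕ) (h : ℕ) : ℕ := (A.filter (fun x => x / 2 ^ k = h)).card

/-- compression -/
def comp (n k : ℕ) (A : Finset ℕ) : Finset ℕ :=
  (range (2 ^ n)).filter (fun x => x % 2 ^ k < wt k A (x / 2 ^ k))

lemma wt_le (k : ℕ) (A : Finset ℕ) (h : ℕ) : wt k A h ≤ 2 ^ k := by
  unfold wt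
  refine le_trans ?_ (card_range (2 ^ k)).le
  apply card_le_card_of_injOn (fun x => x % 2 ^ k)
  · intro x _
    simp only [coe_range, Set.mem_Iio]
    exact Nat.mod_lt _ (by positivity)
  · intro x hx y hy hxy
    simp only [coe_filter, Set.mem_ofPred_eq] at hx hy hxy
    rw [← Nat.div_add_mod x (2 ^ k), ← Nat.div_add_mod y (2 ^ k), hx.2, hy.2, hxy]

lemma mem_comp {n k : ℕ} {A : Finset ℕ} (hA : ∀ x ∈ A, x < 2 ^ n) (hk : k ≤ n) (x : ℕ) :
    x ∈ comp n k A ↔ x % 2 ^ k < wt k A (x / 2 ^ k) := by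
  simp only [comp, mem_filter, mem_range, and_iff_right_iff_imp]
  intro h
  have h1 : 0 < wt k A (x / 2 ^ k) := by omega
  obtain ⟨y, hy⟩ := card_pos.1 h1
  simp only [mem_filter] at hy
  obtain ⟨m, rfl⟩ : ∃ m, n = m + k := ⟨n - k, by omega⟩
  have h2 := hA y hy.1
  rw [pow_add, ← Nat.div_lt_iff_lt_mul (by positivity)] at h2 ⊢
  rwa [← hy.2]

lemma sum_fib {n k : ℕ} {D : Finset ℕ} (hD : ∀ x ∈ D, x < 2 ^ n) (G : ℕ → ℕ) :
    ∑ x ∈ D, G x = ∑ h ∈ range (2 ^ n), ∑ x ∈ D.filter (fun x => x / 2 ^ k = h), G x := by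
  rw [sum_fiberwise_of_maps_to]
  intro x hx
  exact mem_range.2 (lt_of_le_of_lt (Nat.div_le_self _ _) (hD x hx))

lemma comp_lt {n k : ℕ} {A : Finset ℕ} : ∀ x ∈ comp n k A, x < 2 ^ n := by
  intro x hx; exact mem_range.1 (mem_filter.1 hx).1

lemma sum_comp {n k : ℕ} {A : Finset ℕ} (hA : ∀ x ∈ A, x < 2 ^ n) (hk : k ≤ n)
    (F : ℕ → ℕ → ℕ) :
    ∑ x ∈ comp n k A, F (x % 2 ^ k) (x / 2 ^ k) =
      ∑ h ∈ range (2 ^ n), ∑ l ∈ range (wt k A h), F l h := by
  rw [sum_fib (k := k) comp_lt]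
  apply sum_congr rfl
  intro h _
  have hp : 0 < 2 ^ k := by positivity
  apply sum_nbij' (fun x => x % 2 ^ k) (fun l => l + 2 ^ k * h)
  · intro x hx
    simp only [mem_filter, mem_comp hA hk] at hx
    rw [mem_range, ← hx.2]; exact hx.1
  · intro l hl
    have h1 : l < 2 ^ k := lt_of_lt_of_le (mem_range.1 hl) (wt_le k A h)
    simp only [mem_filter, mem_comp hA hk]
    rw [Nat.add_mul_mod_self_left, Nat.add_mul_div_left _ _ hp, Nat.mod_eq_of_lt h1,
      Nat.div_eq_of_lt h1, zero_add]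
    exact ⟨mem_range.1 hl, rfl⟩
  · intro x hx
    simp only [mem_filter] at hx
    rw [← hx.2]; exact Nat.mod_add_div x _
  · intro l hl
    have h1 : l < 2 ^ k := lt_of_lt_of_le (mem_range.1 hl) (wt_le k A h)
    rw [Nat.add_mul_mod_self_left, Nat.mod_eq_of_lt h1]
  · intro x hx
    simp only [mem_filter] at hx
    rw [hx.2]

lemma sum_hi {n k : ℕ} {A : Finset ℕ} (hA : ∀ x ∈ A, x < 2 ^ n) (F : ℕ → ℕ) :
    ∑ x ∈ A, F (x / 2 ^ k) = ∑ h ∈ range (2 ^ n), wt k A h * F h := by
  rw [sum_fib (k := k) hA]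
  apply sum_congr rfl
  intro h _
  rw [sum_congr rfl (g := fun _ => F h) (by intro x hx; rw [(mem_filter.1 hx).2])]
  simp [wt]

lemma sum_comp_hi {n k : ℕ} {A : Finset ℕ} (hA : ∀ x ∈ A, x < 2 ^ n) (hk : k ≤ n) (F : ℕ → ℕ) :
    ∑ x ∈ comp n k A, F (x / 2 ^ k) = ∑ x ∈ A, F (x / 2 ^ k) := by
  rw [sum_comp hA hk (fun _ h => F h), sum_hi hA]
  simp

lemma card_comp {n k : ℕ} {A : Finset ℕ} (hA : ∀ x ∈ A, x < 2 ^ n) (hk : k ≤ n) :
    (comp n k A).card = A.card := by
  have := sum_comp_hi hA hk (fun _ => 1)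
  simpa using this

lemma cnt_comp {n k j : ℕ} {A : Finset ℕ} (hA : ∀ x ∈ A, x < 2 ^ n) (hk : k ≤ n) (hj : k ≤ j)
    (b : Bool) : cnt j b (comp n k A) = cnt j b A := by
  have := sum_comp_hi hA hk (fun h => if h.testBit (j - k) = b then 1 else 0)
  simp only [Nat.testBit_div_two_pow, Nat.sub_add_cancel hj] at this
  unfold cnt
  rw [card_filter, card_filter, this]

lemma fl_div_lo {j k : ℕ} (hj : j < k) (x : ℕ) : fl j x / 2 ^ k = x / 2 ^ k := by
  apply Nat.eq_of_testBit_eq; intro i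
  rw [Nat.testBit_div_two_pow, Nat.testBit_div_two_pow, testBit_fl_ne x (by omega)]

lemma fl_mod_lo {j k : ℕ} (hj : j < k) (x : ℕ) : fl j x % 2 ^ k = fl j (x % 2 ^ k) := by
  apply Nat.eq_of_testBit_eq; intro i
  rw [Nat.testBit_mod_two_pow, testBit_fl, testBit_fl, Nat.testBit_mod_two_pow]
  by_cases h : i < k
  · simp [h]
  · have : j ≠ i := by omega
    simp [h, this]

lemma fl_div_hi {j k : ℕ} (hj : k ≤ j) (x : ℕ) : fl j x / 2 ^ k = fl (j - k) (x / 2 ^ k) := by
  apply Nat.eq_of_testBit_eq; intro i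
  rw [Nat.testBit_div_two_pow, testBit_fl, testBit_fl, Nat.testBit_div_two_pow]
  congr 1
  apply decide_eq_decide.2; omega

lemma fl_mod_hi {j k : ℕ} (hj : k ≤ j) (x : ℕ) : fl j x % 2 ^ k = x % 2 ^ k := by
  apply Nat.eq_of_testBit_eq; intro i
  rw [Nat.testBit_mod_two_pow, Nat.testBit_mod_two_pow]
  by_cases h : i < k
  · rw [testBit_fl_ne x (by omega)]
  · simp [h]

lemma comp_down {n k j : ℕ} {A : Finset ℕ} (hA : ∀ x ∈ A, x < 2 ^ n) (hk : k ≤ n) (hj : j < k)
    (x : ℕ) (hx : x ∈ comp n k A) (hb : x.testBit j = true) : fl j x ∈ comp n k A := by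
  rw [mem_comp hA hk] at hx ⊢
  rw [fl_div_lo hj, fl_mod_lo hj]
  refine lt_trans (fl_lt_self ?_) hx
  rw [Nat.testBit_mod_two_pow]; simp [hj, hb]

lemma mm_down {j : ℕ} {D : Finset ℕ} (h : ∀ x ∈ D, x.testBit j = true → fl j x ∈ D) :
    mm j D = 2 * cnt j true D := by
  rw [mm_eq j true, cnt]
  congr 2
  apply filter_congr
  intro x hx
  exact ⟨fun h1 => h1.1, fun h1 => ⟨h1, h x hx h1⟩⟩

lemma mm_fib {n k : ℕ} {D : Finset ℕ} (hD : ∀ x ∈ D, x < 2 ^ n) (j : ℕ) :
    mm j D = ∑ h ∈ range (2 ^ n),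
      ((D.filter (fun x => x / 2 ^ k = h)).filter (fun x => fl j x ∈ D)).card := by
  unfold mm
  rw [card_filter, sum_fib (k := k) hD]
  apply sum_congr rfl; intro h _
  rw [card_filter (fun x => fl j x ∈ D)]

lemma EE_comp_lo {n k : ℕ} {A : Finset ℕ} (hA : ∀ x ∈ A, x < 2 ^ n) (hk : k ≤ n) :
    EE (range k) A ≤ EE (range k) (comp n k A) := by
  have h1 : EE (range k) (comp n k A) = ∑ h ∈ range (2 ^ n), 2 * phi (wt k A h) := by
    unfold EE
    rw [sum_congr rfl (fun j hj => mm_down (comp_down hA hk (mem_range.1 hj))), ← mul_sum,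
      ← mul_sum]
    congr 1
    unfold phi cnt
    rw [← sum_comp hA hk (fun l _ => pc l)]
    simp only [card_filter]
    rw [sum_comm]
    apply sum_congr rfl; intro x _
    rw [pc_eq_sum k _ (Nat.mod_lt _ (by positivity))]
    apply sum_congr rfl; intro j hj
    rw [Nat.testBit_mod_two_pow]; simp [mem_range.1 hj]
  have h2 : EE (range k) A =
      ∑ h ∈ range (2 ^ n), EE (range k) (A.filter (fun x => x / 2 ^ k = h)) := by
    unfold EE
    rw [sum_comm]
    apply sum_congr rfl; intro j hj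
    rw [mm_fib (k := k) hA]
    apply sum_congr rfl; intro h _
    unfold mm
    congr 1
    apply filter_congr
    intro x hx
    simp only [mem_filter] at hx ⊢
    rw [fl_div_lo (mem_range.1 hj)]
    tauto
  rw [h1, h2]
  exact sum_le_sum (fun h _ => iso _ _)

lemma mm_comp_hi {n k j : ℕ} {A : Finset ℕ} (hA : ∀ x ∈ A, x < 2 ^ n) (hk : k ≤ n) (hj : k ≤ j) :
    mm j A ≤ mm j (comp n k A) := by
  have h1 : mm j (comp n k A) =
      ∑ h ∈ range (2 ^ n), min (wt k A h) (wt k A (fl (j - k) h)) := by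
    have := sum_comp hA hk (fun l h => if l < wt k A (fl (j - k) h) then 1 else 0)
    unfold mm
    rw [card_filter]
    simp only [mem_comp hA hk, fl_div_hi hj, fl_mod_hi hj]
    rw [this]
    apply sum_congr rfl; intro h _
    rw [← card_filter, ← card_range (min _ _)]
    congr 1
    ext l; simp
  rw [h1, mm_fib (k := k) hA]
  apply sum_le_sum
  intro h _
  apply le_min (card_filter_le _ _)
  unfold wt
  apply card_le_card_of_injOn (fl j)
  · intro x hx
    simp only [coe_filter, mem_filter, Set.mem_ofPred_eq] at hx ⊢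
    exact ⟨hx.2, by rw [fl_div_hi hj, hx.1.2]⟩
  · exact (fl_inj j).injOn

lemma Good.comp {n t k : ℕ} {A : Finset ℕ} (h : Good n t A) (hk : k ≤ n) :
    Good n t (comp n k A) := by
  refine ⟨comp_lt, by rw [card_comp h.lt hk, h.card], ?_⟩
  have h1 := EE_comp_lo h.lt hk
  have h2 : ∑ j ∈ Ico k n, mm j A ≤ ∑ j ∈ Ico k n, mm j (MP_ab80ef_co.comp n k A) :=
    sum_le_sum (fun j hj => mm_comp_hi h.lt hk (mem_Ico.1 hj).1)
  have h3 := h.many
  unfold EE at *
  rw [← sum_range_add_sum_Ico _ hk] at h3 ⊢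
  omega

lemma comp_zero {n : ℕ} {A : Finset ℕ} (hA : ∀ x ∈ A, x < 2 ^ n) : comp n 0 A = A := by
  ext x
  rw [mem_comp hA (Nat.zero_le _)]
  simp only [pow_zero, Nat.mod_one, Nat.div_one, wt, card_pos]
  constructor
  · rintro ⟨y, hy⟩
    rw [mem_filter] at hy
    rw [← hy.2]; exact hy.1
  · intro hx; exact ⟨x, mem_filter.2 ⟨hx, rfl⟩⟩

lemma wt_le_succ (k : ℕ) (A : Finset ℕ) (x : ℕ) :
    wt k A (x / 2 ^ k) ≤ wt (k + 1) A (x / 2 ^ (k + 1)) := by
  apply card_le_card
  intro y hy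
  simp only [mem_filter] at hy ⊢
  refine ⟨hy.1, ?_⟩
  rw [pow_succ, ← Nat.div_div_eq_div_mul, ← Nat.div_div_eq_div_mul, hy.2]

lemma mod_succ_of_false {k x : ℕ} (h : x.testBit k = false) : x % 2 ^ (k + 1) = x % 2 ^ k := by
  apply Nat.eq_of_testBit_eq; intro i
  rw [Nat.testBit_mod_two_pow, Nat.testBit_mod_two_pow]
  rcases lt_trichotomy i k with h1 | rfl | h1
  · have : i < k + 1 := by omega
    simp [h1, this]
  · simp [h]
  · have h2 : ¬ i < k + 1 := by omega
    have h3 : ¬ i < k := by omega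
    simp [h2, h3]

lemma cnt_comp_succ {n k j : ℕ} {A : Finset ℕ} (hA : ∀ x ∈ A, x < 2 ^ n) (hk : k + 1 ≤ n)
    (hj : j < k) : cnt j true (comp n k A) ≤ 2 * cnt j true (comp n (k + 1) A) := by
  unfold cnt
  rw [← card_filter_add_card_filter_not (s := (comp n k A).filter (fun x => x.testBit j = true))
    (fun x => x.testBit k = true), two_mul]
  apply add_le_add
  · apply card_le_card_of_injOn (fl k)
    · intro x hx
      simp only [coe_filter, mem_filter, Set.mem_ofPred_eq, mem_comp hA hk,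
        mem_comp hA (by omega : k ≤ n)] at hx ⊢
      refine ⟨?_, by rw [testBit_fl_ne x (by omega)]; exact hx.1.2⟩
      rw [mod_succ_of_false (by simp [hx.2]), fl_mod_hi le_rfl, fl_div_lo (by omega)]
      exact lt_of_lt_of_le hx.1.1 (wt_le_succ k A x)
    · exact (fl_inj k).injOn
  · apply card_le_card
    intro x hx
    simp only [mem_filter, mem_comp hA hk, mem_comp hA (by omega : k ≤ n)] at hx ⊢
    refine ⟨?_, hx.1.2⟩
    rw [mod_succ_of_false (by simpa using hx.2)]
    exact lt_of_lt_of_le hx.1.1 (wt_le_succ k A x)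

lemma Good.bal_comp_succ {n t k : ℕ} {A : Finset ℕ} (h : Good n t A) (hk : k + 1 ≤ n) :
    (bal n t (MP_ab80ef_co.comp n k A)).card ≤ (bal n t (MP_ab80ef_co.comp n (k + 1) A)).card + 1 := by
  have hs : bal n t (MP_ab80ef_co.comp n k A) ⊆
      insert k (bal n t (MP_ab80ef_co.comp n (k + 1) A)) := by
    intro j hj
    simp only [bal, mem_filter, mem_insert] at hj ⊢
    rcases lt_trichotomy j k with h1 | h1 | h1
    · right
      refine ⟨hj.1, ?_⟩
      have a1 := cnt_comp_succ h.lt hk h1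
      have a2 := (h.comp hk).dich_cnt j true
      have a3 := mm_down (comp_down h.lt hk (by omega : j < k + 1))
      have a4 := mm_le j false (MP_ab80ef_co.comp n (k + 1) A)
      omega
    · left; exact h1
    · right
      rw [cnt_comp h.lt (by omega) h1.le, cnt_comp h.lt (by omega) h1.le] at hj
      rw [cnt_comp h.lt hk h1, cnt_comp h.lt hk h1]
      exact hj
  exact le_trans (card_le_card hs) (card_insert_le _ _)

lemma Good.bal_comp_top {n t : ℕ} {A : Finset ℕ} (h : Good n t A) :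
    (bal n t (MP_ab80ef_co.comp n n A)).card ≤ t := by
  rw [← card_range t]
  apply card_le_card
  intro j hj
  simp only [bal, mem_filter, card_range] at hj
  rw [mem_range]
  by_contra hc
  have : cnt j true (MP_ab80ef_co.comp n n A) = 0 := by
    unfold cnt
    rw [card_eq_zero, filter_eq_empty_iff]
    intro x hx
    have h1 := comp_lt x hx
    rw [mem_comp h.lt le_rfl, Nat.mod_eq_of_lt h1] at hx
    have h2 : wt n A (x / 2 ^ n) ≤ 2 ^ t := by rw [← h.card]; exact card_filter_le _ _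
    have h3 : 2 ^ t ≤ 2 ^ j := Nat.pow_le_pow_right (by norm_num) (by omega)
    rw [Nat.testBit_lt_two_pow (by omega)]; simp
  omega

theorem Good.card_bal {n t : ℕ} {A : Finset ℕ} (h : Good n t A) : (bal n t A).card = t := by
  by_contra hc
  have h1 := h.le_card_bal
  have key : ∀ k, k ≤ n → t + 1 ≤ (bal n t (MP_ab80ef_co.comp n k A)).card := by
    intro k
    induction k with
    | zero => intro _; rw [comp_zero h.lt]; omega
    | succ k ih =>
      intro hk
      have a1 := ih (by omega)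
      have a2 := (h.comp (by omega : k ≤ n)).card_bal_ne
      have a3 := h.bal_comp_succ hk
      omega
  have := key n le_rfl
  have := h.bal_comp_top
  omega

/-- the lower bound, on natural numbers -/
theorem lower_nat (n t j : ℕ) (hj : 1 ≤ j) (A : Finset ℕ) (hA : ∀ x ∈ A, x < 2 ^ n)
    (hc : A.card = 2 ^ t)
    (hfar : ∀ B ⊆ range n, ∀ a, 2 ^ t ≤ 2 ^ j * (symmDiff A (cube n B a)).card) :
    2 ^ j * EE (range n) A + j * 2 ^ t ≤ 2 ^ j * (t * 2 ^ t) := by
  by_cases hg : 2 * t * 2 ^ t < 2 * EE (range n) A + 2 ^ t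
  · have h : Good n t A := ⟨hA, hc, hg⟩
    have hBn : bal n t A ⊆ range n := filter_subset _ _
    have h1 := hfar _ hBn (maj A)
    have h2 := h.chain _ (Subset.refl _)
    have h3 := card_cube n (maj A) _ hBn
    rw [h.card_bal] at h3
    have h4 : (symmDiff A (cube n (bal n t A) (maj A))).card =
        2 * outside (range n \ bal n t A) (maj A) A := by
      have e1 : A \ cube n (bal n t A) (maj A) =
          A.filter (fun x => ¬ Agr (range n \ bal n t A) (maj A) x) := by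
        ext x
        simp only [cube, mem_sdiff, mem_filter, mem_range]
        constructor
        · rintro ⟨a1, a2⟩; exact ⟨a1, fun a3 => a2 ⟨hA x a1, a3⟩⟩
        · rintro ⟨a1, a2⟩; exact ⟨a1, fun a3 => a2 a3.2⟩
      have e2 : (cube n (bal n t A) (maj A) \ A).card = (A \ cube n (bal n t A) (maj A)).card :=
        card_sdiff_comm (by rw [h3, hc])
      rw [symmDiff_def, sup_eq_union, card_union_of_disjoint disjoint_sdiff_sdiff, e2, e1]
      unfold outside; ring
    rw [h4] at h1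
    set x := outside (range n \ bal n t A) (maj A) A with hx
    rcases t with _ | s
    · have : x = 0 := by omega
      rw [this] at h1; simp at h1
    obtain ⟨i, rfl⟩ : ∃ i, j = i + 1 := ⟨j - 1, by omega⟩
    have h5 := deficit_ge (range n) (range n \ bal n (s + 1) A) (maj A) A s hc
    have h6 := tau_lower i s x (by rw [pow_succ 2 s] at h1; nlinarith)
      (by rw [pow_succ] at h2; omega)
    rw [← hx] at h5
    have h7 : (0 : ℤ) < 2 ^ (i + 1) := by positivity
    have h8 := mul_le_mul_of_nonneg_left h5 h7.le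
    have h9 : ((2 ^ (i + 1) * EE (range n) A + (i + 1) * 2 ^ (s + 1) : ℕ) : ℤ) ≤
        ((2 ^ (i + 1) * ((s + 1) * 2 ^ (s + 1)) : ℕ) : ℤ) := by
      push_cast at h6 ⊢
      rw [pow_succ 2 s] at *
      nlinarith
    exact_mod_cast h9
  · have h1 := two_mul_le_two_pow j hj
    have h2 : 2 * EE (range n) A + 2 ^ t ≤ 2 * t * 2 ^ t := by omega
    have h3 := Nat.mul_le_mul_left (2 ^ j) h2
    have h4 := Nat.mul_le_mul_left (2 ^ t) h1
    nlinarith

end Pool.Agent.MP_ab80ef_co
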