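import Pool.Agent.MP_ab80ef_co.Num

/- The cube on natural numbers (bits), edge counts, isoperimetry, subcube splitting. -/

namespace Pool.Agent.MP_ab80ef_co

open Finset

/-- flip bit `i` -/
def fl (i x : ℕ) : ℕ := x ^^^ 2 ^ i

lemma testBit_fl (i x j : ℕ) : (fl i x).testBit j = (x.testBit j ^^ decide (i = j)) := by
  simp [fl, Nat.testBit_two_pow]

@[simp] lemma testBit_fl_self (i x : ℕ) : (fl i x).testBit i = !x.testBit i := by
  simp [testBit_fl]

lemma testBit_fl_ne {i j : ℕ} (x : ℕ) (h : i ≠ j) : (fl i x).testBit j = x.testBit j := by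
  simp [testBit_fl, h]

@[simp] lemma fl_fl (i x : ℕ) : fl i (fl i x) = x := by
  simp [fl]

lemma fl_comm (i j x : ℕ) : fl i (fl j x) = fl j (fl i x) := by
  apply Nat.eq_of_testBit_eq; intro k
  simp only [testBit_fl]
  cases x.testBit k <;> cases decide (i = k) <;> cases decide (j = k) <;> rfl

lemma fl_inj (i : ℕ) : Function.Injective (fl i) := by
  intro x y h
  have := congrArg (fl i) h
  simpa using this

lemma fl_lt {n i x : ℕ} (hi : i < n) (hx : x < 2 ^ n) : fl i x < 2 ^ n :=
  Nat.xor_lt_two_pow hx (Nat.pow_lt_pow_right (by norm_num) hi)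

lemma fl_lt_self {i x : ℕ} (h : x.testBit i = true) : fl i x < x := by
  apply Nat.lt_of_testBit i
  · simp [h]
  · exact h
  · intro j hj; exact testBit_fl_ne x (by omega)

/-- ordered edges of direction `i` inside `A` -/
def mm (i : ℕ) (A : Finset ℕ) : ℕ := (A.filter (fun x => fl i x ∈ A)).card

/-- ordered edges with direction in `K` inside `A` -/
def EE (K : Finset ℕ) (A : Finset ℕ) : ℕ := ∑ i ∈ K, mm i A

/-- points of `A` whose bit `i` is `b` -/
def cnt (i : ℕ) (b : Bool) (A : Finset ℕ) : ℕ := (A.filter (fun x => x.testBit i = b)).card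

lemma cnt_add (i : ℕ) (b : Bool) (A : Finset ℕ) : cnt i b A + cnt i (!b) A = A.card := by
  unfold cnt
  rw [← card_filter_add_card_filter_not (s := A) (fun x => x.testBit i = b)]
  congr 2
  apply filter_congr; intro x _
  cases b <;> simp

lemma mm_eq (i : ℕ) (b : Bool) (A : Finset ℕ) :
    mm i A = 2 * (A.filter (fun x => x.testBit i = b ∧ fl i x ∈ A)).card := by
  unfold mm
  rw [← card_filter_add_card_filter_not (s := A.filter (fun x => fl i x ∈ A))
    (fun x => x.testBit i = b), filter_filter, filter_filter, two_mul]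
  congr 1
  · congr 1; apply filter_congr; intro x _; tauto
  · apply card_nbij' (fl i) (fl i)
    · intro x hx
      simp only [coe_filter, Set.mem_ofPred_eq] at hx ⊢
      refine ⟨hx.2.1, ?_, by simpa using hx.1⟩
      have := hx.2.2
      cases b <;> simp_all
    · intro x hx
      simp only [coe_filter, Set.mem_ofPred_eq] at hx ⊢
      refine ⟨hx.2.2, by simpa using hx.1, ?_⟩
      have := hx.2.1
      cases b <;> simp_all
    · intro x _; simp
    · intro x _; simp

lemma mm_le (i : ℕ) (b : Bool) (A : Finset ℕ) : mm i A ≤ 2 * cnt i b A := by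
  rw [mm_eq i b, cnt]
  apply Nat.mul_le_mul_left
  apply card_le_card
  intro x hx
  simp only [mem_filter] at hx ⊢
  exact ⟨hx.1, hx.2.1⟩

lemma mm_le_card (i : ℕ) (A : Finset ℕ) : mm i A ≤ A.card := card_filter_le _ _

/-- splitting along a predicate invariant under the flip -/
lemma mm_split (i : ℕ) (A : Finset ℕ) (p : ℕ → Prop) [DecidablePred p]
    (hp : ∀ x, p (fl i x) ↔ p x) :
    mm i A = mm i (A.filter p) + mm i (A.filter (fun x => ¬ p x)) := by
  unfold mm
  rw [← card_filter_add_card_filter_not (s := A.filter (fun x => fl i x ∈ A)) p]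
  congr 2
  · ext x; simp only [mem_filter, hp]; tauto
  · ext x; simp only [mem_filter, hp]; tauto

/-- the edge-isoperimetric inequality -/
lemma iso (K : Finset ℕ) : ∀ A : Finset ℕ, EE K A ≤ 2 * phi A.card := by
  induction K using Finset.induction_on with
  | empty => intro A; simp [EE]
  | insert i K hi ih =>
    intro A
    have h1 : EE K A = EE K (A.filter (fun x => x.testBit i = true)) +
        EE K (A.filter (fun x => ¬ x.testBit i = true)) := by
      unfold EE
      rw [← sum_add_distrib]
      apply sum_congr rfl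
      intro j hj
      apply mm_split
      intro x
      rw [testBit_fl_ne x (by rintro rfl; exact hi hj)]
    have h2 := ih (A.filter (fun x => x.testBit i = true))
    have h3 := ih (A.filter (fun x => ¬ x.testBit i = true))
    have h4 := mm_le i true A
    have h5 := mm_le i false A
    have h6 := cnt_add i true A
    have h7 := phi_add (cnt i true A) (cnt i false A)
    have e1 : (A.filter (fun x => x.testBit i = true)).card = cnt i true A := rfl
    have e2 : (A.filter (fun x => ¬ x.testBit i = true)).card = cnt i false A := by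
      unfold cnt; congr 1; apply filter_congr; intro x _; simp
    have h8 : EE (insert i K) A = mm i A + EE K A := by unfold EE; rw [sum_insert hi]
    rw [e1] at h2; rw [e2] at h3
    simp only [Bool.not_true] at h6
    rw [h6] at h7
    omega

/-- agreement with the pattern `a` on the directions `S` -/
def Agr (S : Finset ℕ) (a : ℕ → Bool) (x : ℕ) : Prop := ∀ i ∈ S, x.testBit i = a i

instance (S : Finset ℕ) (a : ℕ → Bool) : DecidablePred (Agr S a) := fun x => by
  unfold Agr; infer_instance

lemma EE_sub (K S : Finset ℕ) (a : ℕ → Bool) (A : Finset ℕ) :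
    EE K A ≤ EE K (A.filter (Agr S a)) + EE K (A.filter (fun x => ¬ Agr S a x)) +
      2 * (A.filter (fun x => ¬ Agr S a x)).card := by
  set A1 := A.filter (Agr S a) with hA1
  set A2 := A.filter (fun x => ¬ Agr S a x) with hA2
  have h1 : ∀ i, mm i A ≤ mm i A1 + mm i A2 + 2 * (A2.filter (fun x => fl i x ∈ A1)).card := by
    intro i
    have e : (A1.filter (fun x => fl i x ∈ A2)).card = (A2.filter (fun x => fl i x ∈ A1)).card := by
      apply card_nbij' (fl i) (fl i)
      · intro x hx
        simp only [coe_filter, Set.mem_ofPred_eq] at hx ⊢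
        exact ⟨hx.2, by simpa using hx.1⟩
      · intro x hx
        simp only [coe_filter, Set.mem_ofPred_eq] at hx ⊢
        exact ⟨hx.2, by simpa using hx.1⟩
      · intro x _; simp
      · intro x _; simp
    have hs : A.filter (fun x => fl i x ∈ A) ⊆ A1.filter (fun x => fl i x ∈ A1) ∪
        A2.filter (fun x => fl i x ∈ A2) ∪ A1.filter (fun x => fl i x ∈ A2) ∪
        A2.filter (fun x => fl i x ∈ A1) := by
      intro x hx
      simp only [hA1, hA2, mem_filter, mem_union] at hx ⊢
      tauto
    have h2 := card_le_card hs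
    have h3 := card_union_le (A1.filter (fun x => fl i x ∈ A1) ∪
        A2.filter (fun x => fl i x ∈ A2) ∪ A1.filter (fun x => fl i x ∈ A2))
        (A2.filter (fun x => fl i x ∈ A1))
    have h4 := card_union_le (A1.filter (fun x => fl i x ∈ A1) ∪
        A2.filter (fun x => fl i x ∈ A2)) (A1.filter (fun x => fl i x ∈ A2))
    have h5 := card_union_le (A1.filter (fun x => fl i x ∈ A1))
        (A2.filter (fun x => fl i x ∈ A2))
    unfold mm
    omega
  have h2 : ∑ i ∈ K, (A2.filter (fun x => fl i x ∈ A1)).card ≤ A2.card := by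
    have e0 := sum_card_bipartiteAbove_eq_sum_card_bipartiteBelow (s := K) (t := A2)
      (r := fun i x => fl i x ∈ A1)
    simp only [bipartiteAbove] at e0
    rw [e0, card_eq_sum_ones A2]
    apply sum_le_sum
    intro x hx
    rw [card_le_one]
    intro i hi j hj
    simp only [bipartiteBelow, mem_filter, hA1, hA2] at hi hj hx
    obtain ⟨_, hx⟩ := hx
    unfold Agr at hx
    push Not at hx
    obtain ⟨k, hk, hx⟩ := hx
    have e1 : i = k := by
      by_contra h
      exact hx (by rw [← hi.2.2 k hk, testBit_fl_ne x h])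
    have e2 : j = k := by
      by_contra h
      exact hx (by rw [← hj.2.2 k hk, testBit_fl_ne x h])
    rw [e1, e2]
  unfold EE
  calc ∑ i ∈ K, mm i A
      ≤ ∑ i ∈ K, (mm i A1 + mm i A2 + 2 * (A2.filter (fun x => fl i x ∈ A1)).card) :=
        sum_le_sum (fun i _ => h1 i)
    _ = ∑ i ∈ K, mm i A1 + ∑ i ∈ K, mm i A2 +
        2 * ∑ i ∈ K, (A2.filter (fun x => fl i x ∈ A1)).card := by
        rw [sum_add_distrib, sum_add_distrib, mul_sum]
    _ ≤ _ := by omega

/-- number of points of `A` outside the subcube given by `S`, `a` -/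
def outside (S : Finset ℕ) (a : ℕ → Bool) (A : Finset ℕ) : ℕ :=
  (A.filter (fun x => ¬ Agr S a x)).card

lemma deficit_ge (K S : Finset ℕ) (a : ℕ → Bool) (A : Finset ℕ) (s : ℕ)
    (hA : A.card = 2 ^ (s + 1)) :
    (EE K A : ℤ) + 2 * tau s (outside S a A) ≤ (s + 1) * 2 ^ (s + 1) := by
  have h1 := EE_sub K S a A
  have h2 := iso K (A.filter (Agr S a))
  have h3 := iso K (A.filter (fun x => ¬ Agr S a x))
  have h4 := card_filter_add_card_filter_not (s := A) (Agr S a)
  have h5 := split_bound s (outside S a A) (A.filter (Agr S a)).card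
    (by unfold outside; omega)
  unfold outside at *
  have h6 : EE K A ≤ 2 * phi (A.filter (Agr S a)).card +
      2 * phi (A.filter (fun x => ¬ Agr S a x)).card +
      2 * (A.filter (fun x => ¬ Agr S a x)).card := by omega
  have h7 : ((EE K A : ℕ) : ℤ) ≤ ((2 * phi (A.filter (Agr S a)).card +
      2 * phi (A.filter (fun x => ¬ Agr S a x)).card +
      2 * (A.filter (fun x => ¬ Agr S a x)).card : ℕ) : ℤ) := by exact_mod_cast h6
  push_cast at h7
  linarith

/-- `A` has `2^t` points and excess below one half -/
structure Good (n t : ℕ) (A : Finset ℕ) : Prop where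
  lt : ∀ x ∈ A, x < 2 ^ n
  card : A.card = 2 ^ t
  many : 2 * t * 2 ^ t < 2 * EE (range n) A + 2 ^ t

lemma Good.dich {n t : ℕ} {A : Finset ℕ} (h : Good n t A) (S : Finset ℕ) (a : ℕ → Bool) :
    8 * outside S a A < 2 ^ t ∨ 3 * 2 ^ t < 8 * outside S a A := by
  by_contra hc
  push Not at hc
  rcases t with _ | s
  · omega
  have h1 := deficit_ge (range n) S a A s h.card
  have h2 := tau_window s (outside S a A) (by rw [pow_succ] at hc; omega)
    (by rw [pow_succ] at hc; omega)
  have h3 : ((2 * (s + 1) * 2 ^ (s + 1) : ℕ) : ℤ) <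
      ((2 * EE (range n) A + 2 ^ (s + 1) : ℕ) : ℤ) := by exact_mod_cast h.many
  push_cast at h3
  rw [pow_succ] at h3 h1
  linarith

lemma Good.dich_cnt {n t : ℕ} {A : Finset ℕ} (h : Good n t A) (i : ℕ) (b : Bool) :
    8 * cnt i b A < 2 ^ t ∨ 3 * 2 ^ t < 8 * cnt i b A := by
  have := h.dich {i} (fun _ => !b)
  have e : outside {i} (fun _ => !b) A = cnt i b A := by
    unfold outside cnt Agr
    congr 1
    apply filter_congr
    intro x _
    cases b <;> simp
  rwa [e] at this

/-- balanced directions -/
def bal (n t : ℕ) (A : Finset ℕ) : Finset ℕ :=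
  (range n).filter (fun i => 3 * 2 ^ t < 8 * cnt i true A ∧ 3 * 2 ^ t < 8 * cnt i false A)

/-- majority pattern -/
def maj (A : Finset ℕ) (i : ℕ) : Bool := decide (cnt i false A < cnt i true A)

lemma Good.chain {n t : ℕ} {A : Finset ℕ} (h : Good n t A) (S : Finset ℕ)
    (hS : S ⊆ range n \ bal n t A) : 8 * outside S (maj A) A < 2 ^ t := by
  induction S using Finset.induction_on with
  | empty => simp [outside, Agr]
  | insert i S hi ih =>
    have h1 := ih (fun x hx => hS (mem_insert_of_mem hx))
    have h2 := hS (mem_insert_self i S)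
    have h3 : outside (insert i S) (maj A) A ≤ outside S (maj A) A + cnt i (!maj A i) A := by
      unfold outside cnt
      refine le_trans (card_le_card ?_) (card_union_le _ _)
      intro x hx
      rw [mem_filter] at hx
      rw [mem_union, mem_filter, mem_filter]
      by_cases h4 : x.testBit i = maj A i
      · left
        refine ⟨hx.1, fun h5 => hx.2 ?_⟩
        intro j hj
        rcases mem_insert.1 hj with rfl | hj
        · exact h4
        · exact h5 j hj
      · right; refine ⟨hx.1, ?_⟩
        revert h4; cases x.testBit i <;> cases maj A i <;> simp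
    have h4 : 8 * cnt i (!maj A i) A < 2 ^ t := by
      simp only [bal, mem_sdiff, mem_filter, not_and] at h2
      have h5 := h2.2 h2.1
      have h6 := h.dich_cnt i true
      have h7 := h.dich_cnt i false
      have h8 := cnt_add i true A
      rw [h.card] at h8
      simp only [Bool.not_true] at h8
      unfold maj
      by_cases h9 : cnt i false A < cnt i true A
      · simp only [h9, decide_true, Bool.not_true]; omega
      · simp only [h9, decide_false, Bool.not_false]; omega
    have h5 := h.dich (insert i S) (maj A)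
    omega

end Pool.Agent.MP_ab80ef_co
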