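import Mathlib

namespace Pool.Agent.MP_ab80ef_co

/-- The hypercube graph `Q_n` on `{0,1}^n`: adjacent iff differing in exactly one coordinate. -/
def hypercube (n : ℕ) : SimpleGraph (Fin n → Bool) where
  Adj x y := hammingDist x y = 1
  symm := ⟨fun x y h => by rwa [hammingDist_comm]⟩
  loopless := ⟨fun x h => by simp at h⟩

/-- The edge boundary: edges of `Q_n` with exactly one endpoint in `A`. -/
def edgeBoundary {n : ℕ} (A : Finset (Fin n → Bool)) : Set (Sym2 (Fin n → Bool)) :=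
  {e | e ∈ (hypercube n).edgeSet ∧ ∃ x y, e = s(x, y) ∧ x ∈ A ∧ y ∉ A}

/-- `C = {x : x_i = a_i for all i ∈ S}` for some `S` and `a ∈ {0,1}^S`. -/
def IsSubcube {n : ℕ} (C : Finset (Fin n → Bool)) : Prop :=
  ∃ (S : Finset (Fin n)) (a : S → Bool), ∀ x, x ∈ C ↔ ∀ i : S, x i = a i

/-- `(|∂A| - |A| log_2 (2^n / |A|)) / |A|`. -/
noncomputable def excess {n : ℕ} (A : Finset (Fin n → Bool)) : ℝ :=
  ((edgeBoundary A).ncard - A.card * Real.logb 2 (2 ^ n / A.card)) / A.card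

/-- The set whose infimum is `f(δ)`. -/
def excessValues (δ : ℝ) : Set ℝ :=
  {r | ∃ (n : ℕ) (A : Finset (Fin n → Bool)), 1 ≤ n ∧ (∃ t : ℕ, A.card = 2 ^ t) ∧
    (∀ C : Finset (Fin n → Bool), IsSubcube C → δ * A.card ≤ (symmDiff A C).card) ∧
    r = excess A}

end Pool.Agent.MP_ab80ef_co
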