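import Pool.Agent.MP_ab80ef_co.Cube

/- Subcubes, a level-one Poincare inequality, and the case of `t+1` balanced directions. -/

namespace Pool.Agent.MP_ab80ef_co

open Finset

/-- subcube of `Q_n` with free directions `B` and pattern `a` elsewhere -/
def cube (n : ℕ) (B : Finset ℕ) (a : ℕ → Bool) : Finset ℕ :=
  (range (2 ^ n)).filter (Agr (range n \ B) a)

lemma eq_of_bits {n x y : ℕ} (hx : x < 2 ^ n) (hy : y < 2 ^ n)
    (h : ∀ i < n, x.testBit i = y.testBit i) : x = y := by
  apply Nat.eq_of_testBit_eq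
  intro i
  by_cases hi : i < n
  · exact h i hi
  · have h2 : 2 ^ n ≤ 2 ^ i := Nat.pow_le_pow_right (by norm_num) (by omega)
    rw [Nat.testBit_lt_two_pow (by omega), Nat.testBit_lt_two_pow (by omega)]

lemma cube_empty (n : ℕ) (a : ℕ → Bool) : ∃ p, cube n ∅ a = {p} := by
  refine ⟨Nat.ofBits (fun i : Fin n => a i), ?_⟩
  ext x
  simp only [cube, mem_filter, mem_range, sdiff_empty, Agr, mem_singleton]
  constructor
  · rintro ⟨h1, h2⟩
    apply eq_of_bits h1 (Nat.ofBits_lt_two_pow _)
    intro i hi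
    rw [h2 i hi, Nat.testBit_ofBits_lt _ _ hi]
  · rintro rfl
    refine ⟨Nat.ofBits_lt_two_pow _, fun i hi => ?_⟩
    rw [Nat.testBit_ofBits_lt _ _ hi]

lemma sum_cube_insert {M : Type*} [AddCommMonoid M] {n i : ℕ} {B : Finset ℕ} (a : ℕ → Bool)
    (hi : i < n) (hB : i ∉ B) (F : ℕ → M) :
    ∑ x ∈ cube n (insert i B) a, F x = ∑ x ∈ cube n B a, (F x + F (fl i x)) := by
  have e : cube n (insert i B) a = cube n B a ∪ (cube n B a).image (fl i) := by
    ext x
    simp only [cube, mem_filter, mem_range, mem_union, mem_image, Agr, mem_sdiff, mem_insert,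
      not_or]
    constructor
    · rintro ⟨h1, h2⟩
      by_cases h : x.testBit i = a i
      · left
        refine ⟨h1, fun j hj => ?_⟩
        by_cases hji : j = i
        · rw [hji]; exact h
        · exact h2 j ⟨hj.1, hji, hj.2⟩
      · right
        refine ⟨fl i x, ⟨fl_lt hi h1, fun j hj => ?_⟩, by simp⟩
        by_cases hji : j = i
        · rw [hji, testBit_fl_self]
          revert h; cases x.testBit i <;> cases a i <;> simp
        · rw [testBit_fl_ne x (Ne.symm hji)]
          exact h2 j ⟨hj.1, hji, hj.2⟩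
    · rintro (⟨h1, h2⟩ | ⟨y, ⟨h1, h2⟩, rfl⟩)
      · exact ⟨h1, fun j hj => h2 j ⟨hj.1, hj.2.2⟩⟩
      · refine ⟨fl_lt hi h1, fun j hj => ?_⟩
        rw [testBit_fl_ne y (Ne.symm hj.2.1)]
        exact h2 j ⟨hj.1, hj.2.2⟩
  have d : Disjoint (cube n B a) ((cube n B a).image (fl i)) := by
    rw [disjoint_left]
    intro x hx hx2
    obtain ⟨y, hy, rfl⟩ := mem_image.1 hx2
    simp only [cube, mem_filter, mem_range, Agr, mem_sdiff] at hx hy
    have h1 := hx.2 i ⟨hi, hB⟩
    have h2 := hy.2 i ⟨hi, hB⟩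
    rw [testBit_fl_self, h2] at h1
    simp at h1
  rw [e, sum_union d, sum_image (fun x _ y _ h => fl_inj i h), sum_add_distrib]

lemma card_cube (n : ℕ) (a : ℕ → Bool) (B : Finset ℕ) (hB : B ⊆ range n) :
    (cube n B a).card = 2 ^ B.card := by
  induction B using Finset.induction_on with
  | empty => obtain ⟨p, hp⟩ := cube_empty n a; simp [hp]
  | insert i B hi ih =>
    have h1 := ih (fun x hx => hB (mem_insert_of_mem hx))
    have h2 : i < n := mem_range.1 (hB (mem_insert_self i B))
    rw [card_eq_sum_ones, sum_cube_insert a h2 hi, card_insert_of_notMem hi, pow_succ]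
    simp [h1]

/-- Dirichlet sum in the directions `B` -/
noncomputable def dir (n : ℕ) (B : Finset ℕ) (a : ℕ → Bool) (f : ℕ → ℝ) : ℝ :=
  ∑ j ∈ B, ∑ x ∈ cube n B a, (f x - f (fl j x)) ^ 2

/-- sign of bit `j` -/
def sg (j x : ℕ) : ℝ := if x.testBit j then 1 else -1

lemma dir_insert {n i : ℕ} {B : Finset ℕ} (a : ℕ → Bool) (hi : i < n) (hB : i ∉ B) (f : ℕ → ℝ) :
    dir n (insert i B) a f = 2 * ∑ x ∈ cube n B a, (f x - f (fl i x)) ^ 2 +
      (dir n B a (fun x => f x + f (fl i x)) + dir n B a (fun x => f x - f (fl i x))) / 2 := by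
  unfold dir
  rw [sum_insert hB, sum_cube_insert a hi hB, ← sum_add_distrib, sum_div, mul_sum]
  congr 1
  · apply sum_congr rfl; intro x _; rw [fl_fl]; ring
  · apply sum_congr rfl; intro j _
    rw [sum_cube_insert a hi hB, ← sum_add_distrib, sum_div]
    apply sum_congr rfl; intro x _
    rw [fl_comm j i x]; ring

lemma sq_insert {n i : ℕ} {B : Finset ℕ} (a : ℕ → Bool) (hi : i < n) (hB : i ∉ B) (f : ℕ → ℝ) :
    ∑ x ∈ cube n (insert i B) a, f x ^ 2 = (∑ x ∈ cube n B a, (f x + f (fl i x)) ^ 2 +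
      ∑ x ∈ cube n B a, (f x - f (fl i x)) ^ 2) / 2 := by
  rw [sum_cube_insert a hi hB, ← sum_add_distrib, sum_div]
  apply sum_congr rfl; intro x _; ring

lemma dir_nonneg (n : ℕ) (B : Finset ℕ) (a : ℕ → Bool) (f : ℕ → ℝ) : 0 ≤ dir n B a f :=
  sum_nonneg (fun _ _ => sum_nonneg (fun _ _ => sq_nonneg _))

lemma poincare (n : ℕ) (a : ℕ → Bool) (B : Finset ℕ) (hB : B ⊆ range n) : ∀ f : ℕ → ℝ,
    2 ^ B.card * ∑ x ∈ cube n B a, f x ^ 2 - (∑ x ∈ cube n B a, f x) ^ 2 ≤
      2 ^ B.card / 4 * dir n B a f := by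
  induction B using Finset.induction_on with
  | empty => intro f; obtain ⟨p, hp⟩ := cube_empty n a; simp [hp, dir]
  | insert i B hi ih =>
    intro f
    have h2 : i < n := mem_range.1 (hB (mem_insert_self i B))
    have h1 := ih (fun x hx => hB (mem_insert_of_mem hx)) (fun x => f x + f (fl i x))
    have h3 := dir_nonneg n B a (fun x => f x - f (fl i x))
    rw [dir_insert a h2 hi, sq_insert a h2 hi, sum_cube_insert a h2 hi,
      card_insert_of_notMem hi, pow_succ]
    have h4 : (0 : ℝ) < 2 ^ B.card := by positivity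
    have h5 := mul_nonneg h4.le h3
    nlinarith

lemma level_one (n : ℕ) (a : ℕ → Bool) (B : Finset ℕ) (hB : B ⊆ range n) : ∀ f : ℕ → ℝ,
    2 * (2 ^ B.card * ∑ x ∈ cube n B a, f x ^ 2 - (∑ x ∈ cube n B a, f x) ^ 2) -
      ∑ j ∈ B, (∑ x ∈ cube n B a, f x * sg j x) ^ 2 ≤ 2 ^ B.card / 4 * dir n B a f := by
  induction B using Finset.induction_on with
  | empty => intro f; obtain ⟨p, hp⟩ := cube_empty n a; simp [hp, dir]
  | insert i B hi ih =>
    intro f
    have h2 : i < n := mem_range.1 (hB (mem_insert_self i B))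
    have hB' : B ⊆ range n := fun x hx => hB (mem_insert_of_mem hx)
    have h1 := ih hB' (fun x => f x + f (fl i x))
    have h3 := poincare n a B hB' (fun x => f x - f (fl i x))
    have e1 : ∑ j ∈ B, (∑ x ∈ cube n (insert i B) a, f x * sg j x) ^ 2 =
        ∑ j ∈ B, (∑ x ∈ cube n B a, (f x + f (fl i x)) * sg j x) ^ 2 := by
      apply sum_congr rfl; intro j hj
      rw [sum_cube_insert a h2 hi]
      congr 1
      apply sum_congr rfl; intro x _
      have : sg j (fl i x) = sg j x := by
        unfold sg; rw [testBit_fl_ne x (by rintro rfl; exact hi hj)]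
      rw [this]; ring
    have e2 : (∑ x ∈ cube n (insert i B) a, f x * sg i x) ^ 2 =
        (∑ x ∈ cube n B a, (f x - f (fl i x))) ^ 2 := by
      rw [sum_cube_insert a h2 hi]
      have : ∑ x ∈ cube n B a, (f x * sg i x + f (fl i x) * sg i (fl i x)) =
          (if a i then 1 else -1) * ∑ x ∈ cube n B a, (f x - f (fl i x)) := by
        rw [mul_sum]
        apply sum_congr rfl; intro x hx
        simp only [cube, mem_filter, mem_range, Agr, mem_sdiff] at hx
        have h5 := hx.2 i ⟨h2, hi⟩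
        unfold sg
        rw [testBit_fl_self, h5]
        cases a i <;> simp <;> ring
      rw [this, mul_pow]
      cases a i <;> norm_num
    rw [dir_insert a h2 hi, sq_insert a h2 hi, sum_cube_insert a h2 hi, sum_insert hi, e1, e2,
      card_insert_of_notMem hi, pow_succ]
    nlinarith

lemma level_one_set (n : ℕ) (a : ℕ → Bool) (B : Finset ℕ) (hB : B ⊆ range n) (D : Finset ℕ)
    (hD : D ⊆ cube n B a) :
    2 * (2 ^ B.card * (D.card : ℝ) - (D.card : ℝ) ^ 2) -
      ∑ j ∈ B, ((cnt j true D : ℝ) - cnt j false D) ^ 2 ≤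
      2 ^ B.card / 2 * ∑ j ∈ B, ((D.card : ℝ) - mm j D) := by
  have h := level_one n a B hB (fun x => if x ∈ D then 1 else 0)
  have s0 : ∀ G : ℕ → ℝ, ∑ x ∈ cube n B a, (if x ∈ D then 1 else 0) * G x = ∑ x ∈ D, G x := by
    intro G
    rw [← sum_subset hD (by intro x _ hx; simp [hx])]
    apply sum_congr rfl; intro x hx; simp [hx]
  have e1 : ∑ x ∈ cube n B a, (if x ∈ D then (1 : ℝ) else 0) = D.card := by
    have := s0 (fun _ => 1); simpa using this
  have e2 : ∑ x ∈ cube n B a, (if x ∈ D then (1 : ℝ) else 0) ^ 2 = D.card := by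
    rw [← e1]; apply sum_congr rfl; intro x _; split_ifs <;> simp
  have e3 : ∀ j, ∑ x ∈ cube n B a, (if x ∈ D then (1 : ℝ) else 0) * sg j x =
      (cnt j true D : ℝ) - cnt j false D := by
    intro j
    rw [s0]
    unfold cnt sg
    rw [card_filter, card_filter]
    push_cast
    rw [← sum_sub_distrib]
    apply sum_congr rfl; intro x _
    cases x.testBit j <;> simp
  have e4 : ∀ j ∈ B, ∑ x ∈ cube n B a, ((if x ∈ D then (1 : ℝ) else 0) -
      (if fl j x ∈ D then (1 : ℝ) else 0)) ^ 2 = 2 * ((D.card : ℝ) - mm j D) := by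
    intro j hj
    have hjn : j < n := mem_range.1 (hB hj)
    have hfl : ∀ x ∈ cube n B a, fl j x ∈ cube n B a := by
      intro x hx
      simp only [cube, mem_filter, mem_range, Agr, mem_sdiff] at hx ⊢
      refine ⟨fl_lt hjn hx.1, fun k hk => ?_⟩
      rw [testBit_fl_ne x (by rintro rfl; exact hk.2 hj)]
      exact hx.2 k hk
    have e5 : ∑ x ∈ cube n B a, (if fl j x ∈ D then (1 : ℝ) else 0) = D.card := by
      rw [← e1]
      apply sum_nbij' (fl j) (fl j) hfl hfl <;> simp
    have e6 : ∑ x ∈ cube n B a, (if x ∈ D then (1 : ℝ) else 0) *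
        (if fl j x ∈ D then (1 : ℝ) else 0) = mm j D := by
      rw [s0]; unfold mm; rw [card_filter]; push_cast; rfl
    calc _ = ∑ x ∈ cube n B a, ((if x ∈ D then (1 : ℝ) else 0) +
          (if fl j x ∈ D then (1 : ℝ) else 0) - 2 * ((if x ∈ D then (1 : ℝ) else 0) *
          (if fl j x ∈ D then (1 : ℝ) else 0))) := by
          apply sum_congr rfl; intro x _; split_ifs <;> norm_num
      _ = _ := by rw [sum_sub_distrib, sum_add_distrib, ← mul_sum, e1, e5, e6]; ring
  unfold dir at h
  simp only [e1, e2, e3] at h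
  rw [sum_congr rfl e4, ← mul_sum] at h
  linarith

lemma Good.inside_sub {n t : ℕ} {A : Finset ℕ} (h : Good n t A) (B : Finset ℕ) (a : ℕ → Bool) :
    A.filter (Agr (range n \ B) a) ⊆ cube n B a := by
  intro x hx
  simp only [cube, mem_filter, mem_range] at hx ⊢
  exact ⟨h.lt x hx.1, hx.2⟩

lemma Good.le_card_bal {n t : ℕ} {A : Finset ℕ} (h : Good n t A) : t ≤ (bal n t A).card := by
  have h1 := h.chain _ (Subset.refl _)
  have h2 := card_le_card (h.inside_sub (bal n t A) (maj A))
  rw [card_cube n (maj A) (bal n t A) (filter_subset _ _)] at h2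
  have h3 := card_filter_add_card_filter_not (s := A) (Agr (range n \ bal n t A) (maj A))
  unfold outside at h1
  rw [h.card] at h3
  by_contra hc
  have h4 : 2 ^ ((bal n t A).card + 1) ≤ 2 ^ t := Nat.pow_le_pow_right (by norm_num) (by omega)
  rw [pow_succ] at h4
  omega

lemma phi_small (t x : ℕ) (h : 8 * x < 2 ^ t) : 2 * phi x + 3 * x ≤ t * x := by
  rcases Nat.eq_zero_or_pos x with rfl | hx
  · simp [phi_zero]
  have ht : 3 ≤ t := by
    by_contra hc
    have : 2 ^ t ≤ 2 ^ 3 := Nat.pow_le_pow_right (by norm_num) (by omega)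
    omega
  obtain ⟨s, rfl⟩ : ∃ s, t = s + 3 := ⟨t - 3, by omega⟩
  have h1 := tau_nonneg s x (by rw [pow_add] at h; omega)
  unfold tau at h1
  have h2 : 2 * phi x ≤ s * x := by exact_mod_cast (by linarith : (2 * phi x : ℤ) ≤ s * x)
  nlinarith

lemma Good.card_bal_ne {n t : ℕ} {A : Finset ℕ} (h : Good n t A) :
    (bal n t A).card ≠ t + 1 := by
  intro hc
  set B := bal n t A with hB
  have hBn : B ⊆ range n := filter_subset _ _
  set D := A.filter (Agr (range n \ B) (maj A)) with hD
  set x := outside (range n \ B) (maj A) A with hx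
  have h1 : 8 * x < 2 ^ t := h.chain _ (Subset.refl _)
  have h2 := level_one_set n (maj A) B hBn D (h.inside_sub B (maj A))
  have h3 : D.card + x = 2 ^ t := by
    rw [← h.card]; exact card_filter_add_card_filter_not (s := A) _
  have h4 := EE_sub (range n) (range n \ B) (maj A) A
  have h5 := iso (range n) (A.filter (fun x => ¬ Agr (range n \ B) (maj A) x))
  have h6 := phi_small t x h1
  have h7 : EE (range n) D = ∑ j ∈ B, mm j D := by
    unfold EE
    symm
    apply sum_subset hBn
    intro j hj hjB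
    unfold mm
    rw [card_eq_zero, filter_eq_empty_iff]
    intro y hy hy2
    simp only [hD, mem_filter, Agr] at hy hy2
    have e1 := hy.2 j (mem_sdiff.2 ⟨hj, hjB⟩)
    have e2 := hy2.2 j (mem_sdiff.2 ⟨hj, hjB⟩)
    rw [testBit_fl_self, e1] at e2
    simp at e2
  have h8 : ∀ j ∈ B, ((cnt j true D : ℝ) - cnt j false D) ^ 2 ≤
      ((2 : ℝ) ^ t / 4 + x) * ((D.card : ℝ) - mm j D) := by
    intro j hj
    have a1 := mm_le j true D
    have a2 := mm_le j false D
    have a3 := cnt_add j true D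
    have a4 := cnt_add j true A
    simp only [Bool.not_true] at a3 a4
    have a5 : cnt j true D ≤ cnt j true A :=
      card_le_card (filter_subset_filter _ (filter_subset _ _))
    have a6 : cnt j false D ≤ cnt j false A :=
      card_le_card (filter_subset_filter _ (filter_subset _ _))
    have a7 := (mem_filter.1 hj).2
    rw [h.card] at a4
    have b1 : (mm j D : ℝ) ≤ 2 * cnt j true D := by exact_mod_cast a1
    have b2 : (mm j D : ℝ) ≤ 2 * cnt j false D := by exact_mod_cast a2
    have b3 : (cnt j true D : ℝ) + cnt j false D = D.card := by exact_mod_cast a3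
    have b4 : 4 * (cnt j true D : ℝ) ≤ 4 * cnt j false D + 2 ^ t + 4 * x := by
      have : 4 * cnt j true D ≤ 4 * cnt j false D + 2 ^ t + 4 * x := by omega
      exact_mod_cast this
    have b5 : 4 * (cnt j false D : ℝ) ≤ 4 * cnt j true D + 2 ^ t + 4 * x := by
      have : 4 * cnt j false D ≤ 4 * cnt j true D + 2 ^ t + 4 * x := by omega
      exact_mod_cast this
    rcases le_total (cnt j true D : ℝ) (cnt j false D) with hh | hh
    · have := mul_le_mul (a := (cnt j false D : ℝ) - cnt j true D)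
        (b := (2 : ℝ) ^ t / 4 + x) (c := (cnt j false D : ℝ) - cnt j true D)
        (d := (D.card : ℝ) - mm j D) (by linarith) (by linarith) (by linarith) (by positivity)
      nlinarith
    · have := mul_le_mul (a := (cnt j true D : ℝ) - cnt j false D)
        (b := (2 : ℝ) ^ t / 4 + x) (c := (cnt j true D : ℝ) - cnt j false D)
        (d := (D.card : ℝ) - mm j D) (by linarith) (by linarith) (by linarith) (by positivity)
      nlinarith
  have h9 := sum_le_sum h8
  rw [← mul_sum] at h9
  set d : ℝ := ∑ j ∈ B, ((D.card : ℝ) - mm j D) with hd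
  have h10 : d = (t + 1) * D.card - EE (range n) D := by
    rw [hd, sum_sub_distrib, h7, sum_const, hc]; simp
  have h11 : 2 * t * 2 ^ t + 2 * x < 2 * EE (range n) D + 2 * t * x + 2 ^ t := by
    have := h.many
    have e : (A.filter (fun x => ¬ Agr (range n \ B) (maj A) x)).card = x := rfl
    rw [e] at h4 h5
    nlinarith
  have h12 : (2 * t * 2 ^ t + 2 * x : ℝ) < 2 * EE (range n) D + 2 * t * x + 2 ^ t := by
    exact_mod_cast h11
  have h13 : (D.card : ℝ) + x = 2 ^ t := by exact_mod_cast h3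
  have h14 : (8 * x : ℝ) < 2 ^ t := by exact_mod_cast h1
  rw [hc, pow_succ] at h2
  have hx0 : (0 : ℝ) ≤ x := by positivity
  set M : ℝ := 2 ^ t with hM
  have h15 : (D.card : ℝ) = M - x := by linarith
  have h16 : d < 3 * M / 2 - 2 * x := by rw [h10, h15]; nlinarith
  rw [h15] at h2
  have h17 : (5 * M / 4 + x) * d ≤ (5 * M / 4 + x) * (3 * M / 2 - 2 * x) :=
    mul_le_mul_of_nonneg_left h16.le (by linarith)
  nlinarith

end Pool.Agent.MP_ab80ef_co
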