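import Pool.Agent.MP_ab80ef_co.Compress
import Pool.Agent.MP_ab80ef_co.Defs

/- Transfer to `Fin n → Bool`, the extremal examples, and the main theorem. -/

namespace Pool.Agent.MP_ab80ef_co

open Finset

/-- binary encoding -/
def enc {n : ℕ} (x : Fin n → Bool) : ℕ := Nat.ofBits x

lemma enc_lt {n : ℕ} (x : Fin n → Bool) : enc x < 2 ^ n := Nat.ofBits_lt_two_pow _

lemma testBit_enc {n : ℕ} (x : Fin n → Bool) (i : Fin n) : (enc x).testBit i = x i := by
  unfold enc; rw [Nat.testBit_ofBits_lt _ _ i.2]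

lemma enc_inj {n : ℕ} : Function.Injective (enc (n := n)) := by
  intro x y h
  funext i
  rw [← testBit_enc x i, ← testBit_enc y i, h]

lemma enc_surj {n y : ℕ} (hy : y < 2 ^ n) : ∃ x : Fin n → Bool, enc x = y := by
  refine ⟨fun i => y.testBit i, eq_of_bits (enc_lt _) hy ?_⟩
  intro i hi
  exact testBit_enc _ ⟨i, hi⟩

/-- flip one coordinate -/
def flp {n : ℕ} (i : Fin n) (x : Fin n → Bool) : Fin n → Bool := Function.update x i (!x i)

lemma enc_flp {n : ℕ} (i : Fin n) (x : Fin n → Bool) : enc (flp i x) = fl i (enc x) := by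
  apply eq_of_bits (enc_lt _) (fl_lt i.2 (enc_lt _))
  intro j hj
  have := testBit_enc (flp i x) ⟨j, hj⟩
  simp only at this
  rw [this]
  by_cases h : i = ⟨j, hj⟩
  · subst h
    rw [testBit_fl_self, testBit_enc x ⟨j, hj⟩]; simp [flp]
  · rw [testBit_fl_ne _ (fun h2 => h (Fin.ext h2)), testBit_enc x ⟨j, hj⟩]
    simp [flp, Function.update_of_ne (Ne.symm h)]

lemma adj_iff {n : ℕ} (x y : Fin n → Bool) : hammingDist x y = 1 ↔ ∃ i, y = flp i x := by
  unfold hammingDist
  rw [card_eq_one]
  constructor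
  · rintro ⟨i, hi⟩
    refine ⟨i, funext fun j => ?_⟩
    have h := Finset.ext_iff.1 hi j
    simp only [mem_filter, mem_univ, true_and, mem_singleton] at h
    by_cases hj : j = i
    · subst hj
      have := h.2 rfl
      simp only [flp, Function.update_self]
      revert this; cases x j <;> cases y j <;> simp
    · simp only [flp, Function.update_of_ne hj]
      by_contra hc
      exact hj (h.1 (Ne.symm hc))
  · rintro ⟨i, rfl⟩
    refine ⟨i, ?_⟩
    ext j
    simp only [mem_filter, mem_univ, true_and, mem_singleton]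
    by_cases hj : j = i
    · subst hj; simp [flp]
    · simp [flp, hj]

lemma boundary_card {n : ℕ} (A : Finset (Fin n → Bool)) :
    (edgeBoundary A).ncard + EE (range n) (A.image enc) = n * A.card := by
  classical
  set P := (univ ×ˢ A).filter (fun p : Fin n × (Fin n → Bool) => flp p.1 p.2 ∉ A) with hP
  have e : edgeBoundary A = ↑(P.image (fun p => s(p.2, flp p.1 p.2))) := by
    ext e
    simp only [edgeBoundary, Set.mem_ofPred_eq, coe_image, Set.mem_image, mem_coe, hP, mem_filter,
      mem_product, mem_univ, true_and]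
    constructor
    · rintro ⟨h1, x, y, rfl, hx, hy⟩
      obtain ⟨i, rfl⟩ := (adj_iff x y).1 h1
      exact ⟨(i, x), ⟨hx, hy⟩, rfl⟩
    · rintro ⟨⟨i, x⟩, ⟨hx, hy⟩, rfl⟩
      exact ⟨(adj_iff _ _).2 ⟨i, rfl⟩, x, _, rfl, hx, hy⟩
  have inj : Set.InjOn (fun p : Fin n × (Fin n → Bool) => s(p.2, flp p.1 p.2)) P := by
    rintro ⟨i, x⟩ h1 ⟨j, y⟩ h2 h
    simp only [hP, coe_filter, mem_product, mem_univ, true_and, Set.mem_ofPred_eq] at h1 h2
    simp only [Sym2.eq_iff] at h
    rcases h with ⟨rfl, h⟩ | ⟨h, _⟩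
    · have : i = j := by
        by_contra hc
        have := congrFun h i
        simp [flp, Function.update_of_ne hc] at this
      rw [this]
    · exact absurd (h ▸ h1.1) h2.2
  rw [e, Set.ncard_coe_finset, card_image_of_injOn inj]
  have e2 : P.card = ∑ i : Fin n, (A.filter (fun x => flp i x ∉ A)).card := by
    rw [hP, card_filter, sum_product]
    apply sum_congr rfl; intro i _
    rw [card_filter]
  have e3 : EE (range n) (A.image enc) = ∑ i : Fin n, (A.filter (fun x => flp i x ∈ A)).card := by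
    unfold EE
    rw [← Fin.sum_univ_eq_sum_range (fun i => mm i (A.image enc))]
    apply sum_congr rfl; intro i _
    unfold mm
    rw [filter_image, card_image_of_injective _ enc_inj]
    congr 1
    apply filter_congr; intro x _
    rw [← enc_flp, enc_inj.mem_finset_image]
  rw [e2, e3, ← sum_add_distrib]
  rw [sum_congr rfl (g := fun _ => A.card)]
  · simp
  · intro i _
    rw [add_comm]; exact card_filter_add_card_filter_not (s := A) _

lemma excess_eq {n t : ℕ} (A : Finset (Fin n → Bool)) (h : A.card = 2 ^ t) :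
    excess A = (t * 2 ^ t - EE (range n) (A.image enc)) / 2 ^ t := by
  have h1 : (((edgeBoundary A).ncard + EE (range n) (A.image enc) : ℕ) : ℝ) =
      ((n * A.card : ℕ) : ℝ) := by rw [boundary_card]
  unfold excess
  rw [h] at h1 ⊢
  push_cast at h1 ⊢
  rw [Real.logb_div (by positivity) (by positivity), Real.logb_pow, Real.logb_pow,
    Real.logb_self_eq_one (by norm_num)]
  congr 1
  linarith

lemma subcube_image {n : ℕ} (C : Finset (Fin n → Bool)) (hC : IsSubcube C) :
    ∃ B ⊆ range n, ∃ a, C.image enc = cube n B a := by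
  classical
  obtain ⟨S, a, h⟩ := hC
  refine ⟨range n \ S.image Fin.val, sdiff_subset,
    fun i => if hi : ∃ s : S, (s.1 : ℕ) = i then a hi.choose else false, ?_⟩
  have hb : ∀ s : S, (if hi : ∃ s' : S, (s'.1 : ℕ) = s.1 then a hi.choose else false) = a s := by
    intro s
    have hi : ∃ s' : S, (s'.1 : ℕ) = s.1 := ⟨s, rfl⟩
    rw [dif_pos hi]
    congr 1
    exact Subtype.ext (Fin.ext hi.choose_spec)
  ext y
  simp only [cube, mem_image, mem_filter, mem_range, Agr, mem_sdiff, not_and, not_not]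
  constructor
  · rintro ⟨x, hx, rfl⟩
    refine ⟨enc_lt x, fun i hi => ?_⟩
    obtain ⟨s, hs, rfl⟩ := hi.2 hi.1
    rw [testBit_enc, (h x).1 hx ⟨s, hs⟩]
    exact (hb ⟨s, hs⟩).symm
  · rintro ⟨h1, h2⟩
    obtain ⟨x, rfl⟩ := enc_surj h1
    refine ⟨x, (h x).2 (fun s => ?_), rfl⟩
    rw [← testBit_enc x, h2 s.1 ⟨s.1.2, fun _ => ⟨s.1, s.2, rfl⟩⟩]
    exact hb s

lemma image_subcube {n : ℕ} (B : Finset ℕ) (a : ℕ → Bool) :
    ∃ C : Finset (Fin n → Bool), IsSubcube C ∧ C.image enc = cube n B a := by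
  refine ⟨univ.filter (fun x => ∀ i : Fin n, (i : ℕ) ∉ B → x i = a i),
    ⟨univ.filter (fun i : Fin n => (i : ℕ) ∉ B), fun s => a s.1, fun x => ?_⟩, ?_⟩
  · simp
  · ext y
    simp only [cube, mem_image, mem_filter, mem_range, Agr, mem_sdiff, mem_univ, true_and]
    constructor
    · rintro ⟨x, hx, rfl⟩
      refine ⟨enc_lt x, fun i hi => ?_⟩
      rw [testBit_enc x ⟨i, hi.1⟩]
      exact hx ⟨i, hi.1⟩ hi.2
    · rintro ⟨h1, h2⟩
      obtain ⟨x, rfl⟩ := enc_surj h1
      refine ⟨x, fun i hi => ?_, rfl⟩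
      rw [← testBit_enc x]
      exact h2 i ⟨i.2, hi⟩

lemma card_symmDiff_image {n : ℕ} (A C : Finset (Fin n → Bool)) :
    (symmDiff (A.image enc) (C.image enc)).card = (symmDiff A C).card := by
  rw [← image_symmDiff _ _ enc_inj, card_image_of_injective _ enc_inj]

theorem lower_bound (j : ℕ) (hj : 1 ≤ j) (r : ℝ) (hr : r ∈ excessValues (1 / 2 ^ j)) :
    j / 2 ^ j ≤ r := by
  obtain ⟨n, A, -, ⟨t, ht⟩, hfar, rfl⟩ := hr
  have h := lower_nat n t j hj (A.image enc)
    (by intro y hy; obtain ⟨x, _, rfl⟩ := mem_image.1 hy; exact enc_lt x)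
    (by rw [card_image_of_injective _ enc_inj, ht])
    (by
      intro B _ a
      obtain ⟨C, hC, e⟩ := image_subcube (n := n) B a
      have h1 := hfar C hC
      rw [← e, card_symmDiff_image]
      rw [ht, div_mul_eq_mul_div, one_mul, div_le_iff₀ (by positivity), mul_comm] at h1
      exact_mod_cast h1)
  rw [excess_eq A ht, div_le_div_iff₀ (by positivity) (by positivity)]
  have h2 : ((2 ^ j * EE (range n) (A.image enc) + j * 2 ^ t : ℕ) : ℝ) ≤
      ((2 ^ j * (t * 2 ^ t) : ℕ) : ℝ) := by exact_mod_cast h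
  push_cast at h2
  linarith

/-- a `t`-dimensional subcube with one point moved to a pendant position -/
def ex (t : ℕ) : Finset ℕ := insert (2 ^ t) ((range (2 ^ t)).erase (2 ^ t - 1))

lemma card_ex (t : ℕ) : (ex t).card = 2 ^ t := by
  have : 0 < 2 ^ t := by positivity
  rw [ex, card_insert_of_notMem (by simp), card_erase_of_mem (by simp), card_range]
  omega

lemma ex_lt (t : ℕ) : ∀ x ∈ ex t, x < 2 ^ (t + 1) := by
  intro x hx
  have : 0 < 2 ^ t := by positivity
  simp only [ex, mem_insert, mem_erase, mem_range] at hx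
  rw [pow_succ]; omega

lemma EE_ex (t : ℕ) (ht : 1 ≤ t) : t * 2 ^ t + 2 ≤ EE (range (t + 1)) (ex t) + 2 * t := by
  have h2 : 2 ≤ 2 ^ t := by
    calc 2 = 2 ^ 1 := by norm_num
      _ ≤ 2 ^ t := Nat.pow_le_pow_right (by norm_num) ht
  have h1 : ∀ i ∈ range t, 2 ^ t ≤ mm i (ex t) + 2 := by
    intro i hi
    have hs : ((range (2 ^ t)).erase (2 ^ t - 1)).erase (fl i (2 ^ t - 1)) ⊆
        (ex t).filter (fun x => fl i x ∈ ex t) := by
      intro x hx
      simp only [ex, mem_erase, mem_range, mem_filter, mem_insert] at hx ⊢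
      refine ⟨Or.inr hx.2, Or.inr ⟨?_, fl_lt (mem_range.1 hi) hx.2.2⟩⟩
      intro h
      apply hx.1
      rw [← h, fl_fl]
    have a1 := card_le_card hs
    have a2 := pred_card_le_card_erase (s := (range (2 ^ t)).erase (2 ^ t - 1))
      (a := fl i (2 ^ t - 1))
    have a3 := pred_card_le_card_erase (s := range (2 ^ t)) (a := 2 ^ t - 1)
    rw [card_range] at a3
    unfold mm
    omega
  have h3 : 2 ≤ mm t (ex t) := by
    have hs : ({0, 2 ^ t} : Finset ℕ) ⊆ (ex t).filter (fun x => fl t x ∈ ex t) := by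
      intro x hx
      simp only [ex, mem_erase, mem_range, mem_filter, mem_insert, mem_singleton] at hx ⊢
      rcases hx with rfl | rfl
      · exact ⟨Or.inr ⟨by omega, by omega⟩, Or.inl (by simp [fl])⟩
      · refine ⟨Or.inl rfl, Or.inr ?_⟩
        have : fl t (2 ^ t) = 0 := by simp [fl]
        rw [this]; omega
    have a1 := card_le_card hs
    rw [card_pair (by omega)] at a1
    exact a1
  have h4 := sum_le_sum h1
  rw [sum_const, card_range, sum_add_distrib, sum_const, card_range] at h4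
  unfold EE
  rw [sum_range_succ]
  simp only [smul_eq_mul] at h4
  omega

lemma ex_far (t : ℕ) (ht : 2 ≤ t) (B : Finset ℕ) (hB : B ⊆ range (t + 1)) (a : ℕ → Bool) :
    2 ≤ (symmDiff (ex t) (cube (t + 1) B a)).card := by
  have h4 : 4 ≤ 2 ^ t := by
    calc 4 = 2 ^ 2 := by norm_num
      _ ≤ 2 ^ t := Nat.pow_le_pow_right (by norm_num) ht
  have h1 := card_cube (t + 1) a B hB
  have h2 := card_ex t
  rw [symmDiff_def, sup_eq_union, card_union_of_disjoint disjoint_sdiff_sdiff]
  have a1 := le_card_sdiff (ex t) (cube (t + 1) B a)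
  have a2 := le_card_sdiff (cube (t + 1) B a) (ex t)
  rw [h1, h2] at a1 a2
  rcases lt_trichotomy B.card t with h | h | h
  · have : 2 ^ (B.card + 1) ≤ 2 ^ t := Nat.pow_le_pow_right (by norm_num) h
    rw [pow_succ] at this; omega
  · have e : (cube (t + 1) B a \ ex t).card = (ex t \ cube (t + 1) B a).card :=
      card_sdiff_comm (by rw [h1, h2, h])
    by_contra hc
    have z1 : (ex t \ cube (t + 1) B a).card = 0 := by omega
    have z2 : (cube (t + 1) B a \ ex t).card = 0 := by omega
    rw [card_eq_zero, sdiff_eq_empty_iff_subset] at z1 z2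
    have m1 : 1 ∈ cube (t + 1) B a := z1 (by
      simp only [ex, mem_erase, mem_range, mem_insert]; omega)
    have m2 : 2 ^ t ∈ cube (t + 1) B a := z1 (by simp [ex])
    have m3 : fl 0 (2 ^ t) ∈ cube (t + 1) B a := by
      simp only [cube, mem_filter, mem_range, Agr] at m1 m2 ⊢
      refine ⟨fl_lt (by omega) m2.1, fun i hi => ?_⟩
      have b1 := m1.2 i hi
      have b2 := m2.2 i hi
      have hi0 : 0 ≠ i := by
        rintro rfl
        rw [← b1, Nat.testBit_two_pow_of_ne (by omega)] at b2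
        simp at b2
      rw [testBit_fl_ne _ hi0, b2]
    have m4 := z2 m3
    simp only [ex, mem_erase, mem_range, mem_insert] at m4
    rcases m4 with m4 | m4
    · have := testBit_fl_self 0 (2 ^ t)
      rw [m4] at this
      simp at this
    · have := testBit_fl_ne (i := 0) (j := t) (2 ^ t) (by omega)
      rw [Nat.testBit_lt_two_pow m4.2] at this
      simp at this
  · have : 2 ^ (t + 1) ≤ 2 ^ B.card := Nat.pow_le_pow_right (by norm_num) h
    rw [pow_succ] at this; omega

theorem attained (j : ℕ) (hj : 1 ≤ j) : (j / 2 ^ j : ℝ) ∈ excessValues (1 / 2 ^ j) := by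
  set A : Finset (Fin (j + 1 + 1) → Bool) := univ.filter (fun x => enc x ∈ ex (j + 1)) with hA
  have e : A.image enc = ex (j + 1) := by
    ext y
    simp only [hA, mem_image, mem_filter, mem_univ, true_and]
    constructor
    · rintro ⟨x, hx, rfl⟩; exact hx
    · intro hy
      obtain ⟨x, rfl⟩ := enc_surj (ex_lt _ y hy)
      exact ⟨x, hy, rfl⟩
  have hc : A.card = 2 ^ (j + 1) := by
    rw [← card_image_of_injective _ enc_inj, e, card_ex]
  have hfar : ∀ C : Finset (Fin (j + 1 + 1) → Bool), IsSubcube C →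
      (1 / 2 ^ j : ℝ) * A.card ≤ (symmDiff A C).card := by
    intro C hC
    obtain ⟨B, hB, a, e2⟩ := subcube_image C hC
    have h1 := ex_far (j + 1) (by omega) B hB a
    rw [← e, ← e2, card_symmDiff_image] at h1
    have h2 : (2 : ℝ) ≤ (symmDiff A C).card := by exact_mod_cast h1
    rw [hc]
    push_cast
    rw [pow_succ]
    field_simp
    exact h2
  have hm : excess A ∈ excessValues (1 / 2 ^ j) :=
    ⟨j + 1 + 1, A, by omega, ⟨j + 1, hc⟩, hfar, rfl⟩
  have h1 := lower_bound j hj _ hm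
  have h2 : excess A ≤ j / 2 ^ j := by
    rw [excess_eq A hc, e, div_le_div_iff₀ (by positivity) (by positivity)]
    have h3 : (((j + 1) * 2 ^ (j + 1) + 2 : ℕ) : ℝ) ≤
        ((EE (range (j + 1 + 1)) (ex (j + 1)) + 2 * (j + 1) : ℕ) : ℝ) := by
      exact_mod_cast EE_ex (j + 1) (by omega)
    push_cast at h3 ⊢
    have h4 : (0 : ℝ) < 2 ^ j := by positivity
    rw [pow_succ] at h3 ⊢
    nlinarith
  rw [le_antisymm h1 h2]
  exact hm

theorem main (j : ℕ) (hj : 1 ≤ j) :
    IsLeast (excessValues ((2 : ℝ) ^ (-(j : ℤ)))) (j * (2 : ℝ) ^ (-(j : ℤ))) := by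
  have e : (2 : ℝ) ^ (-(j : ℤ)) = 1 / 2 ^ j := by simp
  rw [e, mul_one_div]
  exact ⟨attained j hj, fun r hr => lower_bound j hj r hr⟩

end Pool.Agent.MP_ab80ef_co
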