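import Mathlib

/- Numerical part: binary digit sums, their partial sums `phi`, and the profile `tau`. -/

namespace Pool.Agent.MP_ab80ef_co

open Finset

/-- binary digit sum -/
def pc (m : ℕ) : ℕ := (Nat.digits 2 m).sum

lemma pc_zero : pc 0 = 0 := by simp [pc]

lemma pc_eq (m : ℕ) : pc m = m % 2 + pc (m / 2) := by
  rcases Nat.eq_zero_or_pos m with rfl | h
  · simp [pc]
  · unfold pc
    rw [Nat.digits_def' (by norm_num) h]
    simp

lemma pc_two_mul (m : ℕ) : pc (2 * m) = pc m := by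
  rw [pc_eq]; simp

lemma pc_two_mul_add_one (m : ℕ) : pc (2 * m + 1) = pc m + 1 := by
  rw [pc_eq]
  have h1 : (2 * m + 1) % 2 = 1 := by omega
  have h2 : (2 * m + 1) / 2 = m := by omega
  rw [h1, h2]; ring

lemma pc_eq_sum (k : ℕ) : ∀ m, m < 2 ^ k →
    pc m = ∑ j ∈ range k, if m.testBit j then 1 else 0 := by
  induction k with
  | zero => intro m hm; have : m = 0 := by omega
            subst this; simp [pc_zero]
  | succ k ih =>
    intro m hm
    rw [sum_range_succ', pc_eq, ih (m / 2) (by omega)]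
    simp only [Nat.testBit_add_one, Nat.testBit_zero]
    rcases Nat.mod_two_eq_zero_or_one m with h | h <;> simp [h, add_comm]

/-- number of edges spanned by the first `a` points in binary order -/
def phi (a : ℕ) : ℕ := ∑ m ∈ range a, pc m

lemma phi_zero : phi 0 = 0 := by simp [phi]

lemma phi_succ (a : ℕ) : phi (a + 1) = phi a + pc a := by simp [phi, sum_range_succ]

lemma phi_two_mul (a : ℕ) : phi (2 * a) = 2 * phi a + a := by
  induction a with
  | zero => simp [phi]
  | succ a ih =>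
    have : 2 * (a + 1) = 2 * a + 1 + 1 := by ring
    rw [this, phi_succ, phi_succ, ih, pc_two_mul, pc_two_mul_add_one, phi_succ]; ring

lemma phi_two_mul_add_one (a : ℕ) : phi (2 * a + 1) = phi a + phi (a + 1) + a := by
  rw [phi_succ, phi_two_mul, pc_two_mul, phi_succ]; ring

lemma phi_add_aux (N : ℕ) : ∀ a b, a + b ≤ N → phi a + phi b + min a b ≤ phi (a + b) := by
  induction N with
  | zero => intro a b h; have : a = 0 := by omega
            have : b = 0 := by omega
            subst_vars; simp [phi_zero]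
  | succ N ih =>
    intro a b h
    rcases Nat.eq_zero_or_pos a with rfl | ha
    · simp [phi_zero]
    rcases Nat.eq_zero_or_pos b with rfl | hb
    · simp [phi_zero]
    obtain ⟨a', rfl | rfl⟩ := Nat.even_or_odd' a <;> obtain ⟨b', rfl | rfl⟩ := Nat.even_or_odd' b
    · have e : 2 * a' + 2 * b' = 2 * (a' + b') := by ring
      have h1 := ih a' b' (by omega)
      rw [e, phi_two_mul, phi_two_mul, phi_two_mul]; omega
    · have e : 2 * a' + (2 * b' + 1) = 2 * (a' + b') + 1 := by ring
      have h1 := ih a' b' (by omega)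
      have h2 := ih a' (b' + 1) (by omega)
      rw [e, phi_two_mul_add_one, phi_two_mul, phi_two_mul_add_one]
      rw [← add_assoc] at h2; omega
    · have e : 2 * a' + 1 + 2 * b' = 2 * (a' + b') + 1 := by ring
      have h1 := ih a' b' (by omega)
      have h2 := ih (a' + 1) b' (by omega)
      have e2 : a' + 1 + b' = a' + b' + 1 := by ring
      rw [e, phi_two_mul_add_one, phi_two_mul, phi_two_mul_add_one]
      rw [e2] at h2; omega
    · have e : 2 * a' + 1 + (2 * b' + 1) = 2 * (a' + b' + 1) := by ring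
      have h1 := ih a' (b' + 1) (by omega)
      have h2 := ih (a' + 1) b' (by omega)
      have e2 : a' + 1 + b' = a' + b' + 1 := by ring
      rw [e, phi_two_mul_add_one, phi_two_mul, phi_two_mul_add_one]
      rw [e2] at h2; rw [← add_assoc] at h1; omega

lemma phi_add (a b : ℕ) : phi a + phi b + min a b ≤ phi (a + b) := phi_add_aux _ a b le_rfl

lemma phi_symm (t : ℕ) : ∀ x y, x + y = 2 ^ t → 2 * phi y + t * x = 2 * phi x + t * y := by
  induction t with
  | zero =>
    intro x y h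
    have h1 : phi 1 = 0 := by simp [phi, pc_zero]
    have : (x = 0 ∧ y = 1) ∨ (x = 1 ∧ y = 0) := by omega
    rcases this with ⟨rfl, rfl⟩ | ⟨rfl, rfl⟩ <;> simp [h1, phi_zero]
  | succ t ih =>
    intro x y h
    rw [pow_succ] at h
    obtain ⟨a, rfl | rfl⟩ := Nat.even_or_odd' x <;> obtain ⟨b, rfl | rfl⟩ := Nat.even_or_odd' y
    · have h1 := ih a b (by omega)
      rw [phi_two_mul, phi_two_mul]; nlinarith
    · omega
    · omega
    · have h1 := ih (a + 1) b (by omega)
      have h2 := ih a (b + 1) (by omega)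
      rw [phi_two_mul_add_one, phi_two_mul_add_one]; nlinarith

/-- edge boundary in `Q_s` of the first `x` points -/
def tau (s x : ℕ) : ℤ := s * x - 2 * phi x

lemma tau_succ (s x : ℕ) : tau (s + 1) x = tau s x + x := by
  unfold tau; push_cast; ring

lemma tau_symm (s x y : ℕ) (h : x + y = 2 ^ s) : tau s x = tau s y := by
  have := phi_symm s x y h
  unfold tau
  have h2 : ((2 * phi y + s * x : ℕ) : ℤ) = ((2 * phi x + s * y : ℕ) : ℤ) := by rw [this]
  push_cast at h2; linarith

lemma tau_ge_min (s : ℕ) : ∀ x y, x + y = 2 ^ s → ((min x y : ℕ) : ℤ) ≤ tau s x := by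
  induction s with
  | zero =>
    intro x y h
    have h1 : phi 1 = 0 := by simp [phi, pc_zero]
    have : (x = 0 ∧ y = 1) ∨ (x = 1 ∧ y = 0) := by omega
    rcases this with ⟨rfl, rfl⟩ | ⟨rfl, rfl⟩ <;> simp [tau, h1, phi_zero]
  | succ s ih =>
    have key : ∀ x y, x + y = 2 ^ (s + 1) → x ≤ y → ((min x y : ℕ) : ℤ) ≤ tau (s + 1) x := by
      intro x y h hxy
      rw [pow_succ] at h
      have h1 := ih x (2 ^ s - x) (by omega)
      rw [tau_succ, min_eq_left hxy]
      have : (0 : ℤ) ≤ ((min x (2 ^ s - x) : ℕ) : ℤ) := by positivity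
      linarith
    intro x y h
    rcases le_total x y with hxy | hxy
    · exact key x y h hxy
    · rw [tau_symm _ x y h, min_comm]; exact key y x (by omega) hxy

lemma tau_nonneg (s x : ℕ) (h : x ≤ 2 ^ s) : 0 ≤ tau s x := by
  have := tau_ge_min s x (2 ^ s - x) (by omega)
  have h2 : (0 : ℤ) ≤ ((min x (2 ^ s - x) : ℕ) : ℤ) := by positivity
  linarith

lemma tau_window (s x : ℕ) (h1 : 2 ^ s ≤ 4 * x) (h2 : 4 * x ≤ 3 * 2 ^ s) :
    (2 : ℤ) ^ s ≤ 2 * tau s x := by
  rcases s with _ | s
  · omega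
  have key : ∀ x, 2 ^ (s + 1) ≤ 4 * x → x ≤ 2 ^ s → (2 : ℤ) ^ (s + 1) ≤ 2 * tau (s + 1) x := by
    intro x h1 h2
    have h3 := tau_ge_min s x (2 ^ s - x) (by omega)
    rw [tau_succ]
    have h4 : 2 ^ s ≤ x + min x (2 ^ s - x) := by rw [pow_succ] at h1; omega
    have h5 : ((2 ^ s : ℕ) : ℤ) ≤ ((x + min x (2 ^ s - x) : ℕ) : ℤ) := by exact_mod_cast h4
    push_cast at h5 h3 ⊢
    rw [pow_succ]; linarith
  rcases le_total x (2 ^ s) with h | h
  · exact key x h1 h
  · rw [pow_succ] at h2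
    rw [tau_symm (s + 1) x (2 ^ (s + 1) - x) (by rw [pow_succ]; omega)]
    apply key
    · rw [pow_succ]; omega
    · rw [pow_succ]; omega

lemma two_mul_le_two_pow (j : ℕ) (hj : 1 ≤ j) : 2 * j ≤ 2 ^ j := by
  obtain ⟨k, rfl⟩ : ∃ k, j = k + 1 := ⟨j - 1, by omega⟩
  have := Nat.lt_two_pow_self (n := k)
  rw [pow_succ]; omega

lemma tau_lower (j : ℕ) : ∀ s x, 2 ^ s ≤ 2 ^ (j + 1) * x → 2 * x ≤ 2 ^ s →
    ((j + 1 : ℕ) : ℤ) * 2 ^ s ≤ 2 ^ (j + 1) * tau s x := by
  induction j with
  | zero =>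
    intro s x h1 h2
    have h3 := tau_window s x (by omega) (by omega)
    simpa using h3
  | succ j ih =>
    intro s x h1 h2
    by_cases hw : 2 ^ s ≤ 4 * x
    · have h3 := tau_window s x hw (by omega)
      have h4 := two_mul_le_two_pow (j + 1 + 1) (by omega)
      have h5 : ((2 * (j + 1 + 1) : ℕ) : ℤ) ≤ ((2 ^ (j + 1 + 1) : ℕ) : ℤ) := by exact_mod_cast h4
      push_cast at h5 ⊢
      have h6 : (0 : ℤ) < 2 ^ s := by positivity
      have h7 : (0 : ℤ) < 2 ^ (j + 1 + 1) := by positivity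
      nlinarith
    · rcases s with _ | s
      · have : x = 0 := by omega
        subst this; simp at h1
      · have h3 := ih s x (by rw [pow_succ, pow_succ 2 (j + 1)] at h1; nlinarith)
          (by rw [pow_succ] at hw; omega)
        rw [tau_succ]
        have h5 : ((2 ^ (s + 1) : ℕ) : ℤ) ≤ ((2 ^ (j + 1 + 1) * x : ℕ) : ℤ) := by exact_mod_cast h1
        push_cast at h5 h3 ⊢
        rw [pow_succ 2 s, pow_succ 2 (j + 1)] at *
        nlinarith

lemma split_bound (s x y : ℕ) (h : x + y = 2 ^ (s + 1)) :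
    (2 * phi y + 2 * phi x + 2 * x : ℤ) = (s + 1) * 2 ^ (s + 1) - 2 * tau s x := by
  have h1 := tau_symm (s + 1) x y h
  have h2 := tau_succ s x
  have h3 : ((x + y : ℕ) : ℤ) = ((2 ^ (s + 1) : ℕ) : ℤ) := by rw [h]
  unfold tau at *
  push_cast at *
  rw [← h3]; linarith

end Pool.Agent.MP_ab80ef_co
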